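import Pool.Agent.helper23.CS.Spec
import Pool.Agent.helper23.CS.Lib

/-!
Row cs:PAR (helper9).
-/

set_option autoImplicit false

open Finset

namespace CS

theorem PAR_find {V ι : Type} [Fintype V] [DecidableEq V] [DecidableEq ι] (G : MG V ι) (E F C : Finset ι)
    (S : Finset V) (a z : V) (ha : a ∈ S) (hz : z ∉ S) (hFE : F ⊆ E) (hC : C ⊆ ins G E S) (hFC : F ∩ ins G E S ⊆ C)
    (h1 : ∀ σ : V → Bool, (∏ e ∈ F, mm G e σ) * (CU.sg (σ a) * CU.sg (σ z)) = 1) :
    (∃ e ∈ F ∩ oS G E S, Conn G C a (G.s e)) ∨ ∃ e ∈ F ∩ oT G E S, Conn G C a (G.t e) := by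
  classical
  by_contra hno
  push Not at hno
  obtain ⟨hS, hT⟩ := hno
  have hCin : ∀ e ∈ C, G.s e ∈ S ∧ G.t e ∈ S := fun e he => (mem_filter.1 (hC he)).2
  have hin : ∀ v, Conn G C a v → v ∈ S := fun v hv => Conn_in hCin ha hv
  obtain ⟨τ, hτ0, hτ1⟩ : ∃ τ : V → Bool, (∀ v, Conn G C a v → τ v = false) ∧ ∀ v, ¬ Conn G C a v → τ v = true :=
    ⟨fun v => if Conn G C a v then false else true, fun v h => if_pos h, fun v h => if_neg h⟩
  have hmm : ∀ e ∈ F, mm G e τ = 1 := by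
    intro e he
    have heq : τ (G.s e) = τ (G.t e) := by
      by_cases hs : G.s e ∈ S
      · by_cases ht : G.t e ∈ S
        · have heC : e ∈ C := hFC (mem_inter.2 ⟨he, mem_filter.2 ⟨hFE he, hs, ht⟩⟩)
          have hce : Conn G C (G.s e) (G.t e) := Conn_edge heC
          by_cases hc : Conn G C a (G.s e)
          · rw [hτ0 _ hc, hτ0 _ (Conn_trans hc hce)]
          · rw [hτ1 _ hc, hτ1 _ fun h => hc (Conn_trans h (Conn_symm hce))]
        · have hc := hS e (mem_inter.2 ⟨he, mem_filter.2 ⟨hFE he, hs, ht⟩⟩)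
          rw [hτ1 _ hc, hτ1 _ fun h => ht (hin _ h)]
      · by_cases ht : G.t e ∈ S
        · have hc := hT e (mem_inter.2 ⟨he, mem_filter.2 ⟨hFE he, ht, hs⟩⟩)
          rw [hτ1 _ hc, hτ1 _ fun h => hs (hin _ h)]
        · rw [hτ1 _ fun h => hs (hin _ h), hτ1 _ fun h => ht (hin _ h)]
    unfold mm
    rw [heq]
    exact sg_sq _
  have h2 := h1 τ
  rw [Finset.prod_eq_one hmm, hτ0 a (Conn_refl G C a), hτ1 z fun h => hz (hin _ h)] at h2
  norm_num [CU.sg] at h2

theorem PAR : PAR_stmt := by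
  intro V ι _ _ _ G E F C S a z ha hz hFE hC hFC
  have hch : Ch (fun σ : V → Bool => (∏ e ∈ F, mm G e σ) * (CU.sg (σ a) * CU.sg (σ z))) :=
    Ch_mul (Ch_prod G F) (Ch_mul (Ch_sg a) (Ch_sg z))
  have hKK : KK G ∅ (fun σ : V → Bool => (∏ e ∈ F, mm G e σ) * (CU.sg (σ a) * CU.sg (σ z))) =
      ∑ σ : V → Bool, (∏ e ∈ F, mm G e σ) * (CU.sg (σ a) * CU.sg (σ z)) := by
    unfold KK
    exact Finset.sum_congr rfl fun σ _ => by rw [Finset.prod_empty, one_mul]
  have hpos := KN_pos G C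
  rcases KK_char G ∅ _ hch with ⟨h, -⟩ | ⟨-, h0⟩
  · refine mul_nonneg (sum_char_nonneg _ hch) ?_
    have h1 : ∀ σ : V → Bool, (∏ e ∈ F, mm G e σ) * (CU.sg (σ a) * CU.sg (σ z)) = 1 := by
      intro σ
      refine h σ fun e he => ?_
      simp at he
    have hnS : ∀ e, 0 ≤ KK G C fun η => CU.sg (η a) * CU.sg (η (G.s e)) := fun e => by
      rw [KK_two]
      exact mul_nonneg (ind_nonneg _) hpos.le
    have hnT : ∀ e, 0 ≤ KK G C fun η => CU.sg (η a) * CU.sg (η (G.t e)) := fun e => by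
      rw [KK_two]
      exact mul_nonneg (ind_nonneg _) hpos.le
    have hsS : 0 ≤ ∑ e ∈ F ∩ oS G E S, KK G C fun η => CU.sg (η a) * CU.sg (η (G.s e)) :=
      Finset.sum_nonneg fun e _ => hnS e
    have hsT : 0 ≤ ∑ e ∈ F ∩ oT G E S, KK G C fun η => CU.sg (η a) * CU.sg (η (G.t e)) :=
      Finset.sum_nonneg fun e _ => hnT e
    rcases PAR_find G E F C S a z ha hz hFE hC hFC h1 with ⟨e, he, hc⟩ | ⟨e, he, hc⟩
    · have h3 := Finset.single_le_sum (f := fun e => KK G C fun η => CU.sg (η a) * CU.sg (η (G.s e)))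
        (fun e _ => hnS e) he
      have h4 : KK G C (fun η => CU.sg (η a) * CU.sg (η (G.s e))) = KN G C := by
        rw [KK_two, ind_true hc, one_mul]
      simp only [h4] at h3
      linarith
    · have h3 := Finset.single_le_sum (f := fun e => KK G C fun η => CU.sg (η a) * CU.sg (η (G.t e)))
        (fun e _ => hnT e) he
      have h4 : KK G C (fun η => CU.sg (η a) * CU.sg (η (G.t e))) = KN G C := by
        rw [KK_two, ind_true hc, one_mul]
      simp only [h4] at h3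
      linarith
  · rw [← hKK, h0, zero_mul]

end CS
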